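import Mathlib

open Finset SimpleGraph

namespace Pool.Agent.Lib.MP_144d21_co

/-- The adjacency relation of the graph built from a clique on `W`, an apex vertex `u` joined to
`C ⊆ W`, cliques `P_i` (of size `p i`) joined to `u` and to `A i ⊆ W`, and `x j` further vertices
joined to `S j ⊆ W`. -/
def adj {W : Type} {l K : ℕ} (C : Finset W) (A : Fin l → Finset W) (p : Fin l → ℕ)
    (S : Fin K → Finset W) (x : Fin K → ℕ) :
    (W ⊕ Unit) ⊕ ((Σ i, Fin (p i)) ⊕ (Σ j, Fin (x j))) →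
    (W ⊕ Unit) ⊕ ((Σ i, Fin (p i)) ⊕ (Σ j, Fin (x j))) → Prop
  | .inl (.inl w), .inl (.inl w') => w ≠ w'
  | .inl (.inl w), .inl (.inr _) => w ∈ C
  | .inl (.inr _), .inl (.inl w) => w ∈ C
  | .inl (.inl w), .inr (.inl m) => w ∈ A m.1
  | .inr (.inl m), .inl (.inl w) => w ∈ A m.1
  | .inl (.inl w), .inr (.inr m) => w ∈ S m.1
  | .inr (.inr m), .inl (.inl w) => w ∈ S m.1
  | .inl (.inr _), .inr (.inl _) => True
  | .inr (.inl _), .inl (.inr _) => True
  | .inr (.inl m), .inr (.inl m') => m.1 = m'.1 ∧ m ≠ m'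
  | _, _ => False

/-- The graph with adjacency relation `adj`. -/
def graph {W : Type} {l K : ℕ} (C : Finset W) (A : Fin l → Finset W) (p : Fin l → ℕ)
    (S : Fin K → Finset W) (x : Fin K → ℕ) :
    SimpleGraph ((W ⊕ Unit) ⊕ ((Σ i, Fin (p i)) ⊕ (Σ j, Fin (x j)))) where
  Adj := adj C A p S x
  symm := ⟨by
    rintro ((w | w) | (w | w)) ((v | v) | (v | v)) h <;> simp_all [adj]
    · exact fun h' => h h'.symm
    · exact fun h' => h.2 h'.symm⟩
  loopless := ⟨by
    rintro ((w | w) | (w | w)) h <;> simp_all [adj]⟩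

variable {W : Type} [Fintype W] [DecidableEq W] {l K : ℕ}

/-- The data of a proper colouring. -/
abbrev Data (C : Finset W) (A : Fin l → Finset W) (p : Fin l → ℕ)
    (S : Fin K → Finset W) (x : Fin K → ℕ) (q : ℕ) : Type :=
  Σ f : W ↪ Fin q, (Σ c : {c : Fin q // c ∉ C.map f},
      ∀ i : Fin l, Fin (p i) ↪ {d : Fin q // d ∉ insert c.1 ((A i).map f)}) ×
    (∀ m : (Σ j, Fin (x j)), {d : Fin q // d ∉ (S m.1).map f})

noncomputable def colEquiv (C : Finset W) (A : Fin l → Finset W) (p : Fin l → ℕ)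
    (S : Fin K → Finset W) (x : Fin K → ℕ) (q : ℕ) :
    (graph C A p S x).Coloring (Fin q) ≃ Data C A p S x q where
  toFun f := ⟨⟨fun w => f (.inl (.inl w)), fun w w' h => by
      by_contra hne
      exact f.valid (v := .inl (.inl w)) (w := .inl (.inl w')) hne h⟩,
    ⟨⟨f (.inl (.inr ())), by
      intro h
      obtain ⟨w, hw, hc⟩ := Finset.mem_map.1 h
      exact f.valid (v := .inl (.inl w)) (w := .inl (.inr ())) hw hc⟩,
     fun i => ⟨fun m => ⟨f (.inr (.inl ⟨i, m⟩)), by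
      intro h
      rcases Finset.mem_insert.1 h with h | h
      · exact f.valid (v := .inr (.inl ⟨i, m⟩)) (w := .inl (.inr ())) trivial h
      · obtain ⟨w, hw, hc⟩ := Finset.mem_map.1 h
        exact f.valid (v := .inl (.inl w)) (w := .inr (.inl ⟨i, m⟩)) hw hc⟩, fun m m' h => by
        by_contra hne
        refine f.valid (v := .inr (.inl ⟨i, m⟩)) (w := .inr (.inl ⟨i, m'⟩)) ⟨rfl, ?_⟩
          (Subtype.ext_iff.1 h)
        intro h'
        exact hne (by simpa using h')⟩⟩,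
    fun m => ⟨f (.inr (.inr m)), by
      intro h
      obtain ⟨w, hw, hc⟩ := Finset.mem_map.1 h
      exact f.valid (v := .inl (.inl w)) (w := .inr (.inr m)) hw hc⟩⟩
  invFun d := SimpleGraph.Coloring.mk
    (fun v => match v with
      | .inl (.inl w) => d.1 w
      | .inl (.inr _) => d.2.1.1.1
      | .inr (.inl m) => (d.2.1.2 m.1 m.2).1
      | .inr (.inr m) => (d.2.2 m).1) (by
    have h1 : ∀ w ∈ C, d.1 w ≠ d.2.1.1.1 := fun w hw h =>
      d.2.1.1.2 (Finset.mem_map.2 ⟨w, hw, h⟩)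
    have h2 : ∀ m : (Σ i, Fin (p i)), ∀ w ∈ A m.1, d.1 w ≠ (d.2.1.2 m.1 m.2).1 := fun m w hw h =>
      (d.2.1.2 m.1 m.2).2 (Finset.mem_insert_of_mem (Finset.mem_map.2 ⟨w, hw, h⟩))
    have h3 : ∀ m : (Σ i, Fin (p i)), d.2.1.1.1 ≠ (d.2.1.2 m.1 m.2).1 := fun m h =>
      (d.2.1.2 m.1 m.2).2 (by rw [← h]; exact Finset.mem_insert_self _ _)
    have h4 : ∀ m : (Σ j, Fin (x j)), ∀ w ∈ S m.1, d.1 w ≠ (d.2.2 m).1 := fun m w hw h =>
      (d.2.2 m).2 (Finset.mem_map.2 ⟨w, hw, h⟩)
    have h5 : ∀ m m' : (Σ i, Fin (p i)), m.1 = m'.1 → m ≠ m' →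
        (d.2.1.2 m.1 m.2).1 ≠ (d.2.1.2 m'.1 m'.2).1 := by
      rintro ⟨i, m⟩ ⟨i', m'⟩ h hne heq
      dsimp at h
      subst h
      apply hne
      have : m = m' := (d.2.1.2 i).injective (Subtype.ext heq)
      rw [this]
    intro v w hvw
    change adj C A p S x v w at hvw
    rcases v with ((v | v) | (v | v)) <;> rcases w with ((w | w) | (w | w)) <;>
      simp only [adj] at hvw
    · exact fun h => hvw (d.1.injective h)
    · exact h1 _ hvw
    · exact h2 _ _ hvw
    · exact h4 _ _ hvw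
    · exact (h1 _ hvw).symm
    · exact h3 _
    · exact (h2 _ _ hvw).symm
    · exact (h3 _).symm
    · exact h5 _ _ hvw.1 hvw.2
    · exact (h4 _ _ hvw).symm)
  left_inv f := by
    apply DFunLike.ext
    rintro ((v | v) | (v | v)) <;> rfl
  right_inv d := by
    rfl

lemma card_not_mem {q : ℕ} (s : Finset (Fin q)) :
    Fintype.card {d : Fin q // d ∉ s} = q - #s := by
  have h : Fintype.card {d : Fin q // d ∉ s} = #(sᶜ) := by
    rw [Fintype.card_subtype]
    congr 1
    ext d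
    simp
  rw [h, Finset.card_compl, Fintype.card_fin]

lemma card_coloring (C : Finset W) (A : Fin l → Finset W) (p : Fin l → ℕ)
    (S : Fin K → Finset W) (x : Fin K → ℕ) (q : ℕ) :
    Nat.card ((graph C A p S x).Coloring (Fin q)) =
      ∑ f : W ↪ Fin q, (∑ c ∈ univ.filter (fun c => c ∉ C.map f),
        ∏ i, (q - #(insert c ((A i).map f))).descFactorial (p i)) *
          ∏ j, (q - #(S j)) ^ (x j) := by
  rw [Nat.card_congr (colEquiv C A p S x q), Nat.card_eq_fintype_card, Fintype.card_sigma]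
  refine Finset.sum_congr rfl fun f _ => ?_
  rw [Fintype.card_prod, Fintype.card_sigma]
  congr 1
  · rw [Finset.sum_subtype (univ.filter (fun c => c ∉ C.map f)) (p := fun c => c ∉ C.map f)
      (by simp) (fun c => ∏ i, (q - #(insert c ((A i).map f))).descFactorial (p i))]
    refine Finset.sum_congr rfl fun c _ => ?_
    rw [Fintype.card_pi]
    refine Finset.prod_congr rfl fun i _ => ?_
    rw [Fintype.card_embedding_eq, Fintype.card_fin, card_not_mem]
  · rw [Fintype.card_pi, Fintype.prod_sigma]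
    refine Finset.prod_congr rfl fun j _ => ?_
    rw [Finset.prod_congr rfl (fun m _ => card_not_mem _)]
    simp

end Pool.Agent.Lib.MP_144d21_co
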