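import Mathlib
import Pool.Agent.Lib.MP_144d21_co.Count

open Finset SimpleGraph

namespace Pool.Agent.Lib.MP_144d21_co

/-- The clique `W`: a part `C` of size `γ`, disjoint sets of sizes `a i`, and `ρ` further
vertices. -/
abbrev WT (l γ ρ : ℕ) (a : Fin l → ℕ) : Type := Fin γ ⊕ ((Σ i : Fin l, Fin (a i)) ⊕ Fin ρ)

variable {l K : ℕ} (γ ρ β : ℕ) (p a : Fin l → ℕ)

def setC : Finset (WT l γ ρ a) := univ.filter (fun w => w.isLeft = true)

def inA (i : Fin l) : WT l γ ρ a → Bool
  | .inl w => decide (w.1 + p i + a i < β)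
  | .inr (.inl m) => decide (m.1 = i)
  | .inr (.inr _) => false

def setA (i : Fin l) : Finset (WT l γ ρ a) := univ.filter (fun w => inA γ ρ β p a i w = true)

lemma card_WT : Fintype.card (WT l γ ρ a) = γ + (∑ i, a i) + ρ := by
  simp [WT, add_assoc]

lemma card_setA (i : Fin l) (h1 : p i + a i ≤ β) (h2 : β ≤ γ + p i + a i) :
    #(setA γ ρ β p a i) = β - p i := by
  rw [setA, Finset.card_filter, Fintype.sum_sum_type, Fintype.sum_sum_type, Fintype.sum_sigma]
  have e1 : (∑ w : Fin γ, if inA γ ρ β p a i (.inl w) = true then 1 else 0) = β - p i - a i := by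
    rw [← Finset.card_filter]
    have : (univ.filter (fun w : Fin γ => inA γ ρ β p a i (.inl w) = true)) =
        univ.filter (fun w : Fin γ => w.1 < β - p i - a i) := by
      ext w
      simp only [inA, mem_filter, mem_univ, true_and, decide_eq_true_eq]
      omega
    rw [this, Fin.card_filter_val_lt]
    omega
  have e2 : (∑ j : Fin l, ∑ m : Fin (a j),
      if inA γ ρ β p a i (.inr (.inl ⟨j, m⟩)) = true then 1 else 0) = a i := by
    rw [Finset.sum_eq_single i]
    · simp [inA]
    · intro j _ hj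
      simp [inA, hj]
    · simp
  have e3 : (∑ w : Fin ρ, if inA γ ρ β p a i (.inr (.inr w)) = true then 1 else 0) = 0 := by
    simp [inA]
  rw [e1, e2, e3]
  omega

lemma sum_split {W : Type} [Fintype W] [DecidableEq W] {q : ℕ} (C : Finset W) (f : W ↪ Fin q)
    (g : Fin q → ℕ) :
    ∑ c ∈ univ.filter (fun c => c ∉ C.map f), g c =
      ∑ w ∈ Cᶜ, g (f w) + ∑ c ∈ (univ.map f)ᶜ, g c := by
  have h : univ.filter (fun c => c ∉ C.map f) = (Cᶜ.map f) ∪ (univ.map f)ᶜ := by
    ext c
    simp only [mem_filter, mem_univ, true_and, mem_union, mem_map, mem_compl, not_exists,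
      not_and]
    constructor
    · intro h
      by_cases hc : ∃ w, f w = c
      · obtain ⟨w, hw⟩ := hc
        exact Or.inl ⟨w, fun hwC => h w hwC hw, hw⟩
      · right
        intro w hw
        exact hc ⟨w, hw⟩
    · rintro (⟨w, hw, rfl⟩ | h) v hv hvc
      · exact hw (f.injective hvc ▸ hv)
      · exact h v hvc
  rw [h, Finset.sum_union, Finset.sum_map]
  rw [Finset.disjoint_left]
  rintro c hc hc'
  obtain ⟨w, -, rfl⟩ := Finset.mem_map.1 hc
  simp at hc'

/-- The inner sum over the colours of the apex vertex. -/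
lemma inner_sum (q : ℕ) (h1 : ∀ i, p i + a i ≤ β) (h2 : ∀ i, β ≤ γ + p i + a i)
    (f : WT l γ ρ a ↪ Fin q) :
    ∑ c ∈ univ.filter (fun c => c ∉ (setC γ ρ a).map f),
        ∏ i, (q - #(insert c ((setA γ ρ β p a i).map f))).descFactorial (p i) =
      (ρ + (q - (γ + (∑ i, a i) + ρ))) * ∏ i, (q - (β - p i + 1)).descFactorial (p i) +
      ∑ i, a i * ((q - (β - p i)).descFactorial (p i) *
        ∏ j ∈ univ.erase i, (q - (β - p j + 1)).descFactorial (p j)) := by
  rw [sum_split]
  have hg : ∀ w : WT l γ ρ a, ∀ i, #(insert (f w) ((setA γ ρ β p a i).map f)) =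
      if inA γ ρ β p a i w = true then β - p i else β - p i + 1 := by
    intro w i
    split_ifs with h
    · rw [Finset.insert_eq_of_mem, Finset.card_map, card_setA _ _ _ _ _ _ (h1 i) (h2 i)]
      exact Finset.mem_map.2 ⟨w, by simpa [setA] using h, rfl⟩
    · rw [Finset.card_insert_of_notMem, Finset.card_map, card_setA _ _ _ _ _ _ (h1 i) (h2 i)]
      rw [Finset.mem_map' f]
      simpa [setA] using h
  have hg' : ∀ c ∈ (univ.map f)ᶜ, ∀ i, #(insert c ((setA γ ρ β p a i).map f)) =
      β - p i + 1 := by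
    intro c hc i
    rw [Finset.card_insert_of_notMem, Finset.card_map, card_setA _ _ _ _ _ _ (h1 i) (h2 i)]
    intro h
    obtain ⟨w, -, rfl⟩ := Finset.mem_map.1 h
    simp at hc
  have hs2 : ∑ c ∈ (univ.map f)ᶜ,
      ∏ i, (q - #(insert c ((setA γ ρ β p a i).map f))).descFactorial (p i) =
      (q - (γ + (∑ i, a i) + ρ)) * ∏ i, (q - (β - p i + 1)).descFactorial (p i) := by
    rw [Finset.sum_congr rfl (fun c hc => Finset.prod_congr rfl
      (fun i _ => by rw [hg' c hc i])), Finset.sum_const, Finset.card_compl, Finset.card_map,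
      Finset.card_univ, card_WT, Fintype.card_fin, smul_eq_mul]
  rw [hs2]
  have hs1 : ∑ w ∈ (setC γ ρ a)ᶜ,
      ∏ i, (q - #(insert (f w) ((setA γ ρ β p a i).map f))).descFactorial (p i) =
      ρ * ∏ i, (q - (β - p i + 1)).descFactorial (p i) +
      ∑ i, a i * ((q - (β - p i)).descFactorial (p i) *
        ∏ j ∈ univ.erase i, (q - (β - p j + 1)).descFactorial (p j)) := by
    have e : (setC γ ρ a)ᶜ = univ.filter (fun w : WT l γ ρ a => ¬ (w.isLeft = true)) := by
      ext w; simp [setC]
    rw [e, Finset.sum_filter, Fintype.sum_sum_type, Fintype.sum_sum_type, Fintype.sum_sigma]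
    simp only [Sum.isLeft_inl, Sum.isLeft_inr, not_true_eq_false, if_false, Finset.sum_const_zero,
      zero_add, Bool.false_eq_true, not_false_eq_true, if_true]
    rw [add_comm]
    congr 1
    · rw [Finset.sum_congr rfl (fun w _ => Finset.prod_congr rfl
        (fun i _ => by rw [hg (.inr (.inr w)) i]))]
      simp [inA]
    · refine Finset.sum_congr rfl fun i _ => ?_
      rw [Finset.sum_congr rfl (fun w _ => Finset.prod_congr rfl
        (fun j _ => by rw [hg (.inr (.inl ⟨i, w⟩)) j]))]
      simp only [inA, decide_eq_true_eq, Finset.sum_const, Finset.card_univ, Fintype.card_fin,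
        smul_eq_mul]
      congr 1
      rw [← Finset.mul_prod_erase univ _ (Finset.mem_univ i)]
      congr 1
      · simp
      · refine Finset.prod_congr rfl fun j hj => ?_
        rw [if_neg (Finset.ne_of_mem_erase hj).symm]
  rw [hs1]
  ring

end Pool.Agent.Lib.MP_144d21_co
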