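import Mathlib
import Pool.Agent.Lib.MP_144d21_co.Eval

open Finset SimpleGraph

namespace Pool.Agent.Lib.MP_144d21_co

/-- The exponents `e_j` of the construction. -/
def expo {l : ℕ} (β s t : ℕ) (p : Fin l → ℕ) (j : ℕ) : ℕ :=
  (if j = β then l - 1 else 0) + #{i | β < j + p i ∧ j < β} +
    (if j = β + s then 1 else 0) + (if j = β + t then 1 else 0)

lemma cast_descFactorial_eq (q k : ℕ) (h : k ≤ q) :
    ((q.descFactorial k : ℕ) : ℤ) = ∏ j ∈ range k, ((q : ℤ) - j) := by
  rw [Nat.descFactorial_eq_prod_range]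
  push_cast
  refine Finset.prod_congr rfl fun j hj => ?_
  rw [Nat.cast_sub]
  have := Finset.mem_range.1 hj
  omega

lemma prod_ite_pow (k : ℕ) (q : ℤ) (b : ℕ) (hb : b < k) (e : ℕ) :
    ∏ j ∈ range k, (q - j) ^ (if j = b then e else 0) = (q - b) ^ e := by
  rw [Finset.prod_eq_single b]
  · simp
  · intro j _ hj
    simp [hj]
  · intro h
    exact absurd (Finset.mem_range.2 hb) h

lemma prod_block (k q β p : ℕ) (hp : 1 ≤ p) (hpβ : p ≤ β) (hβ : β ≤ k) (hq : k ≤ q) :
    ∏ j ∈ range k, (if β < j + p ∧ j < β then ((q : ℤ) - j) else 1) =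
      (((q - β + p - 1).descFactorial (p - 1) : ℕ) : ℤ) := by
  rw [cast_descFactorial_eq _ _ (by omega), ← Finset.prod_filter]
  symm
  refine Finset.prod_bij' (fun m _ => β + 1 + m - p) (fun j _ => j + p - 1 - β) ?_ ?_ ?_ ?_ ?_
  · intro m hm
    simp only [mem_filter, mem_range] at hm ⊢
    omega
  · intro j hj
    simp only [mem_filter, mem_range] at hj ⊢
    omega
  · intro m hm
    simp only [mem_range] at hm
    omega
  · intro j hj
    simp only [mem_filter, mem_range] at hj
    omega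
  · intro m hm
    simp only [mem_range] at hm
    have h1 : ((q - β + p - 1 : ℕ) : ℤ) = q - β + p - 1 := by
      omega
    have h2 : ((β + 1 + m - p : ℕ) : ℤ) = β + 1 + m - p := by
      omega
    rw [h1, h2]
    ring

lemma prod_expo {l : ℕ} (k q β s t : ℕ) (p : Fin l → ℕ) (hp : ∀ i, 1 ≤ p i)
    (hpβ : ∀ i, p i ≤ β) (hs : β + s < k) (ht : β + t < k) (hq : k ≤ q) :
    ∏ j ∈ range k, ((q : ℤ) - j) ^ (expo β s t p j) =
      ((q : ℤ) - β) ^ (l - 1) * (∏ i, (((q - β + p i - 1).descFactorial (p i - 1) : ℕ) : ℤ)) *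
        ((q : ℤ) - (β + s : ℕ)) * ((q : ℤ) - (β + t : ℕ)) := by
  unfold expo
  simp only [pow_add, Finset.prod_mul_distrib]
  rw [prod_ite_pow k q β (by omega), prod_ite_pow k q (β + s) hs, prod_ite_pow k q (β + t) ht]
  rw [pow_one, pow_one]
  congr 1
  congr 1
  congr 1
  have h : ∀ j ∈ range k, ((q : ℤ) - j) ^ #{i | β < j + p i ∧ j < β} =
      ∏ i : Fin l, (if β < j + p i ∧ j < β then ((q : ℤ) - j) else 1) := by
    intro j _
    rw [← Finset.prod_filter, Finset.prod_const]
  rw [Finset.prod_congr rfl h, Finset.prod_comm]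
  refine Finset.prod_congr rfl fun i _ => ?_
  exact prod_block k q β (p i) (hp i) (hpβ i) (by omega) hq

/-- The algebraic identity behind the construction. -/
lemma alg_identity {l : ℕ} (hl : 1 ≤ l) (y s t : ℤ) (p a Q : Fin l → ℤ)
    (hst : s * t = ∑ i, p i * a i) :
    (y - s - t - ∑ i, a i) * ∏ i, (y * Q i) +
      ∑ i, a i * (((y + p i) * Q i) * ∏ j ∈ univ.erase i, (y * Q j)) =
    y ^ (l - 1) * (∏ i, Q i) * (y - s) * (y - t) := by
  have h1 : ∏ i, (y * Q i) = y ^ (l - 1) * (y * ∏ i, Q i) := by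
    rw [Finset.prod_mul_distrib, Finset.prod_const, Finset.card_univ, Fintype.card_fin,
      ← mul_assoc, ← pow_succ]
    congr 2
    omega
  have h2 : ∀ i : Fin l, a i * (((y + p i) * Q i) * ∏ j ∈ univ.erase i, (y * Q j)) =
      (a i * y + p i * a i) * (y ^ (l - 1) * ∏ i, Q i) := by
    intro i
    have h3 : ∏ j ∈ univ.erase i, (y * Q j) = y ^ (l - 1) * ∏ j ∈ univ.erase i, Q j := by
      rw [Finset.prod_mul_distrib, Finset.prod_const, Finset.card_erase_of_mem
        (Finset.mem_univ _), Finset.card_univ, Fintype.card_fin]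
    rw [h3, ← Finset.mul_prod_erase univ Q (Finset.mem_univ i)]
    ring
  rw [h1, Finset.sum_congr rfl (fun i _ => h2 i), ← Finset.sum_mul, Finset.sum_add_distrib,
    ← Finset.sum_mul, ← hst]
  ring

lemma count_eq {l : ℕ} (k β s t : ℕ) (p a : Fin l → ℕ) (hs : 1 ≤ s) (ht : 1 ≤ t)
    (hp : ∀ i, 1 ≤ p i) (hpa : ∀ i, p i + a i ≤ β)
    (hst : s * t = ∑ i, p i * a i) (ρ : ℕ) (hk : β + s + t + (∑ i, a i) + ρ = k + 1)
    (S : Fin (k + 1) → Finset (WT l (β + s + t) ρ a)) (hS : ∀ j, #(S j) = j.1)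
    (x : Fin (k + 1) → ℕ) (r : ℕ → ℕ) (hr : ∀ j : Fin (k + 1), r j = 1 + expo β s t p j + x j)
    (q : ℕ) :
    ((Nat.card ((graph (setC (β + s + t) ρ a) (setA (β + s + t) ρ β p a) p S x).Coloring
      (Fin q)) : ℕ) : ℤ) = ∏ i ∈ range (k + 1), ((q : ℤ) - i) ^ (r i) := by
  have hl : 1 ≤ l := by
    rcases Nat.eq_zero_or_pos l with h | h
    · subst h
      simp at hst
      omega
    · exact h
  have ha : 1 ≤ ∑ i, a i := by
    by_contra h
    have h0 : ∑ i, a i = 0 := by omega
    rw [Finset.sum_eq_zero_iff] at h0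
    have : ∑ i, p i * a i = 0 := Finset.sum_eq_zero fun i hi => by rw [h0 i hi, mul_zero]
    have h1 : 1 ≤ s * t := Nat.mul_pos hs ht
    omega
  rw [card_coloring]
  have hin := inner_sum (β + s + t) ρ β p a q hpa (fun i => by omega)
  rw [Finset.sum_congr rfl (fun f _ => by rw [hin f]), Finset.sum_const, Finset.card_univ,
    Fintype.card_embedding_eq, Fintype.card_fin, card_WT, hk, smul_eq_mul]
  rcases Nat.lt_or_ge q (k + 1) with hq | hq
  · rw [Nat.descFactorial_eq_zero_iff_lt.2 hq, zero_mul]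
    symm
    rw [Nat.cast_zero]
    apply Finset.prod_eq_zero (Finset.mem_range.2 hq)
    rw [sub_self]
    apply zero_pow
    have := hr ⟨q, hq⟩
    simp only at this
    omega
  · set y : ℕ := q - β with hy
    set Q : Fin l → ℕ := fun i => (y + p i - 1).descFactorial (p i - 1) with hQ
    have hU : ∀ i, (q - (β - p i + 1)).descFactorial (p i) = y * Q i := by
      intro i
      obtain ⟨p', hp'⟩ : ∃ p', p i = p' + 1 := ⟨p i - 1, by have := hp i; omega⟩
      have h1 : q - (β - p i + 1) = y + p' := by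
        have := hpa i; omega
      simp only [hQ]
      rw [h1, hp', Nat.descFactorial_succ]
      simp
    have hV : ∀ i, (q - (β - p i)).descFactorial (p i) = (y + p i) * Q i := by
      intro i
      obtain ⟨p', hp'⟩ : ∃ p', p i = p' + 1 := ⟨p i - 1, by have := hp i; omega⟩
      have h1 : q - (β - p i) = y + p' + 1 := by
        have := hpa i; omega
      simp only [hQ]
      rw [h1, hp', Nat.succ_descFactorial_succ]
      simp [add_assoc]
    have hcoef : ρ + (q - (k + 1)) = y - s - t - ∑ i, a i := by omega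
    have hcoef' : ((y - s - t - ∑ i, a i : ℕ) : ℤ) = y - s - t - ∑ i, (a i : ℤ) := by
      have h1 : s + t + ∑ i, a i ≤ y := by omega
      rw [Nat.cast_sub (by omega), Nat.cast_sub (by omega), Nat.cast_sub (by omega)]
      push_cast
      rfl
    simp only [hU, hV]
    rw [hcoef]
    push_cast
    rw [hcoef', cast_descFactorial_eq q (k + 1) hq]
    have hid := alg_identity hl (y : ℤ) s t (fun i => (p i : ℤ)) (fun i => (a i : ℤ))
      (fun i => (Q i : ℤ)) (by exact_mod_cast hst)
    rw [hid]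
    have hr' : ∀ j ∈ range (k + 1), ((q : ℤ) - j) ^ (r j) =
        ((q : ℤ) - j) * ((q : ℤ) - j) ^ (expo β s t p j) *
          ((q : ℤ) - j) ^ (if h : j < k + 1 then x ⟨j, h⟩ else 0) := by
      intro j hj
      have hj' := Finset.mem_range.1 hj
      have := hr ⟨j, hj'⟩
      simp only at this
      rw [this, pow_add, pow_add, pow_one, dif_pos hj']
    rw [Finset.prod_congr rfl hr', Finset.prod_mul_distrib, Finset.prod_mul_distrib,
      prod_expo (k + 1) q β s t p hp (fun i => by have := hpa i; omega) (by omega) (by omega) hq]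
    have hx : ∏ j : Fin (k + 1), ((q - #(S j) : ℕ) : ℤ) ^ (x j) =
        ∏ j ∈ range (k + 1), ((q : ℤ) - j) ^ (if h : j < k + 1 then x ⟨j, h⟩ else 0) := by
      rw [Finset.prod_range]
      refine Finset.prod_congr rfl fun j _ => ?_
      have := j.2
      rw [hS, Nat.cast_sub (by omega), dif_pos j.2]
    rw [hx]
    have hyc : (y : ℤ) = (q : ℤ) - β := by
      rw [hy, Nat.cast_sub (by omega)]
    have e1 : ((q : ℤ) - ((β + s : ℕ) : ℤ)) = (y : ℤ) - s := by rw [hyc]; push_cast; ring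
    have e2 : ((q : ℤ) - ((β + t : ℕ) : ℤ)) = (y : ℤ) - t := by rw [hyc]; push_cast; ring
    rw [e1, e2, ← hyc]
    ring

end Pool.Agent.Lib.MP_144d21_co
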